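import Mathlib

/-!
# MP_924486_an: sublacunary interpolation sets for distal sequences

Every set of positive integers whose gaps tend to infinity (for instance the set of squares) is an
interpolation set for distal sequences.
-/

namespace Pool.Agent.Results.MP_924486_an.SparseInterpolation

open Filter Topology

/-! ### definitions of the statement -/

/-- a map of a metric space is distal if distinct points stay apart -/
def IsDistal {X : Type} [MetricSpace X] (T : X → X) : Prop :=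
  ∀ x y : X, x ≠ y → ∃ δ : ℝ, 0 < δ ∧ ∀ n : ℕ, 1 ≤ n → δ ≤ dist (T^[n] x) (T^[n] y)

/-- distal sequences (only the values at `n ≥ 1` matter) -/
def DistalSeq (ψ : ℕ → ℂ) : Prop :=
  ∃ (X : Type) (_ : MetricSpace X) (_ : CompactSpace X) (T : X → X) (F : X → ℂ) (x : X),
    Continuous T ∧ IsDistal T ∧ Continuous F ∧ ∀ n : ℕ, 1 ≤ n → ψ n = F (T^[n] x)

/-- interpolation sets for distal sequences -/
def Interp (E : Set ℕ) : Prop :=
  ∀ f : ℕ → ℂ, (∃ C : ℝ, ∀ n ∈ E, ‖f n‖ ≤ C) → ∃ ψ : ℕ → ℂ, DistalSeq ψ ∧ ∀ n ∈ E, ψ n = f n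

/-- sublacunary sets: `E = {r_1 < r_2 < …}` with `log r_n / n → 0` (here `r_{n+1} = r n`) -/
def Sublacunary (E : Set ℕ) : Prop :=
  ∃ r : ℕ → ℕ, StrictMono r ∧ Set.range r = E ∧
    Tendsto (fun n : ℕ => Real.log (r n) / (n + 1)) atTop (𝓝 0)

/-! ### distal sequences form an algebra -/

lemma DistalSeq.map₂ {ψ₁ ψ₂ : ℕ → ℂ} (h₁ : DistalSeq ψ₁) (h₂ : DistalSeq ψ₂) (G : ℂ × ℂ → ℂ)
    (hG : Continuous G) : DistalSeq fun n => G (ψ₁ n, ψ₂ n) := by
  obtain ⟨X, _, _, T, F, x, hT, hTd, hF, hψ⟩ := h₁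
  obtain ⟨Y, _, _, S, F', y, hS, hSd, hF', hψ'⟩ := h₂
  have hit : ∀ (n : ℕ) (p : X × Y), (Prod.map T S)^[n] p = (T^[n] p.1, S^[n] p.2) := by
    intro n p
    rw [Prod.map_iterate]
    rfl
  refine ⟨X × Y, inferInstance, inferInstance, Prod.map T S, fun p => G (F p.1, F' p.2), (x, y),
    hT.prodMap hS, ?_, by fun_prop, ?_⟩
  · intro p p' hne
    by_cases h : p.1 = p'.1
    · have h2 : p.2 ≠ p'.2 := fun h2 => hne (Prod.ext h h2)
      obtain ⟨δ, hδ, hd⟩ := hSd _ _ h2
      refine ⟨δ, hδ, fun n hn => ?_⟩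
      rw [hit, hit, Prod.dist_eq]
      exact (hd n hn).trans (le_max_right _ _)
    · obtain ⟨δ, hδ, hd⟩ := hTd _ _ h
      refine ⟨δ, hδ, fun n hn => ?_⟩
      rw [hit, hit, Prod.dist_eq]
      exact (hd n hn).trans (le_max_left _ _)
  · intro n hn
    simp only [hit, hψ n hn, hψ' n hn]

/-! ### a criterion for distality -/

lemma isDistal_of_closed {X : Type} [MetricSpace X] [CompactSpace X] {T : X → X}
    (h : ∀ x y : X, x ≠ y → ∃ K : Set (X × X), IsClosed K ∧ (∀ n : ℕ, (T^[n] x, T^[n] y) ∈ K) ∧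
      ∀ z, (z, z) ∉ K) : IsDistal T := by
  intro x y hne
  obtain ⟨K, hK, hmem, hdiag⟩ := h x y hne
  obtain ⟨p, hp, hmin⟩ := hK.isCompact.exists_isMinOn ⟨_, hmem 0⟩
    (continuous_dist.continuousOn : ContinuousOn (fun p : X × X => dist p.1 p.2) K)
  refine ⟨dist p.1 p.2, ?_, fun n _ => hmin (hmem n)⟩
  rw [dist_pos]
  intro he
  apply hdiag p.1
  have : p = (p.1, p.1) := Prod.ext rfl he.symm
  rwa [← this]

/-! ### one step of the construction -/

lemma step {E : Set ℕ} {N N' j : ℕ}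
    (hN : ∀ e ∈ E, ∀ e' ∈ E, e < e' → N < e' → e + 2 ^ j ≤ e') (h2 : 2 ^ j ≤ N + 1)
    (c : ℕ → ℝ) (hc0 : ∀ n, 0 ≤ c n) (hc1 : ∀ n, c n ≤ 1) :
    ∃ (q : ℕ) (_ : NeZero q) (H : ZMod q → ℝ), H 0 = 0 ∧ (∀ z, |H (z + 1) - H z| ≤ (1 / 2) ^ j) ∧
      (∀ n ∈ E, n ≤ N → n ≤ N' → H n = 0) ∧ ∀ n ∈ E, N < n → n ≤ N' → H n = c n := by
  classical
  set f0 : ℕ → ℝ := fun n => if n ∈ E ∧ N < n ∧ n ≤ N' then c n else 0 with hf0
  set S : Set ℕ := {n | n = 0 ∨ (n ∈ E ∧ n ≤ N') ∨ N' + 2 ^ j ≤ n} with hS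
  have hle1 : ∀ n, |f0 n| ≤ 1 := by
    intro n
    simp only [hf0]
    split_ifs
    · rw [abs_of_nonneg (hc0 n)]; exact hc1 n
    · simp
  have hb0 : ∀ n, 0 ≤ f0 n := by
    intro n
    simp only [hf0]
    split_ifs
    · exact hc0 n
    · exact le_rfl
  have hb1 : ∀ n, f0 n ≤ 1 := fun n => (le_abs_self _).trans (hle1 n)
  -- the key estimate for `a < b`
  have key : ∀ a ∈ S, ∀ b ∈ S, a < b → |f0 a - f0 b| ≤ (1 / 2) ^ j * ((b : ℝ) - a) := by
    intro a ha b hb hab
    have hab' : (0 : ℝ) < (b : ℝ) - a := by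
      have : (a : ℝ) < b := by exact_mod_cast hab
      linarith
    by_cases hz : f0 a = 0 ∧ f0 b = 0
    · rw [hz.1, hz.2]
      simp only [sub_zero, abs_zero]
      positivity
    · have hdist : a + 2 ^ j ≤ b := by
        by_cases hbE : b ∈ E ∧ N < b ∧ b ≤ N'
        · rcases ha with ha | ha | ha
          · omega
          · exact hN a ha.1 b hbE.1 hab hbE.2.1
          · omega
        · have hb0' : f0 b = 0 := by simp only [hf0]; rw [if_neg hbE]
          have haE : a ∈ E ∧ N < a ∧ a ≤ N' := by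
            by_contra hcon
            apply hz
            refine ⟨?_, hb0'⟩
            simp only [hf0]
            rw [if_neg hcon]
          rcases hb with hb | hb | hb
          · omega
          · exact absurd ⟨hb.1, by omega, hb.2⟩ hbE
          · omega
      have h3 : (2 : ℝ) ^ j ≤ (b : ℝ) - a := by
        have : ((a + 2 ^ j : ℕ) : ℝ) ≤ b := by exact_mod_cast hdist
        push_cast at this
        linarith
      have h4 : |f0 a - f0 b| ≤ 1 := by
        rw [abs_le]
        constructor <;> linarith [hb0 a, hb0 b, hb1 a, hb1 b]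
      have h5 : (1 / 2 : ℝ) ^ j * 2 ^ j = 1 := by rw [← mul_pow]; norm_num
      calc |f0 a - f0 b| ≤ 1 := h4
        _ = (1 / 2 : ℝ) ^ j * 2 ^ j := h5.symm
        _ ≤ (1 / 2 : ℝ) ^ j * ((b : ℝ) - a) := mul_le_mul_of_nonneg_left h3 (by positivity)
  have hlip : LipschitzOnWith ((1 / 2) ^ j) f0 S := by
    apply LipschitzOnWith.of_dist_le_mul
    intro a ha b hb
    rw [Real.dist_eq, Nat.dist_eq]
    push_cast
    rcases lt_trichotomy a b with h | h | h
    · rw [abs_of_nonpos (by
        have : (a : ℝ) < b := by exact_mod_cast h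
        linarith : (a : ℝ) - b ≤ 0), neg_sub]
      exact key a ha b hb h
    · rw [h]; simp
    · rw [abs_of_nonneg (by
        have : (b : ℝ) < a := by exact_mod_cast h
        linarith : (0 : ℝ) ≤ (a : ℝ) - b), abs_sub_comm]
      exact key b hb a ha h
  obtain ⟨g, hg, hgS⟩ := hlip.extend_real
  have hstep : ∀ n : ℕ, |g (n + 1) - g n| ≤ (1 / 2) ^ j := by
    intro n
    have h := hg.dist_le_mul (n + 1) n
    rw [Real.dist_eq, Nat.dist_eq] at h
    push_cast at h
    simpa using h
  have hq : NeZero (N' + 2 ^ j + 1) := ⟨Nat.succ_ne_zero _⟩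
  refine ⟨N' + 2 ^ j + 1, hq, fun z => g z.val, ?_, ?_, ?_, ?_⟩
  · simp only [ZMod.val_zero]
    rw [← hgS (Or.inl rfl)]
    simp [hf0]
  · intro z
    have hv := ZMod.val_lt z
    by_cases h : z.val + 1 < N' + 2 ^ j + 1
    · have : (z + 1).val = z.val + 1 := by
        have h1 : z + 1 = ((z.val + 1 : ℕ) : ZMod (N' + 2 ^ j + 1)) := by
          push_cast
          rw [ZMod.natCast_zmod_val]
        rw [h1, ZMod.val_natCast_of_lt h]
      simp only [this]
      exact hstep _
    · have hv2 : z.val = N' + 2 ^ j := by omega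
      have hz1 : z + 1 = 0 := by
        have h1 : ((z.val + 1 : ℕ) : ZMod (N' + 2 ^ j + 1)) = 0 := by
          rw [hv2]
          exact ZMod.natCast_self _
        push_cast at h1
        rwa [ZMod.natCast_zmod_val] at h1
      have h0 : g 0 = 0 := by
        rw [← hgS (Or.inl rfl)]
        simp [hf0]
      have h1 : g (N' + 2 ^ j) = 0 := by
        rw [← hgS (Or.inr (Or.inr le_rfl))]
        simp only [hf0]
        rw [if_neg]
        have : 1 ≤ 2 ^ j := Nat.one_le_two_pow
        omega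
      simp only [hz1, ZMod.val_zero, hv2, h0, h1]
      simp
  · intro n hn h1 h3
    simp only
    rw [ZMod.val_natCast_of_lt (by
      have : 1 ≤ 2 ^ j := Nat.one_le_two_pow
      omega), ← hgS (Or.inr (Or.inl ⟨hn, h3⟩))]
    simp only [hf0]
    rw [if_neg]
    omega
  · intro n hn h1 h3
    simp only
    rw [ZMod.val_natCast_of_lt (by
      have : 1 ≤ 2 ^ j := Nat.one_le_two_pow
      omega), ← hgS (Or.inr (Or.inl ⟨hn, h3⟩))]
    simp only [hf0]
    rw [if_pos ⟨hn, h1, h3⟩]

/-! ### the skew product -/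

section Skew

set_option linter.unusedSectionVars false

variable (q : ℕ → ℕ) [∀ j, NeZero (q j)] (H : ∀ j, ZMod (q j) → ℝ)

/-- the cocycle -/
noncomputable def phi (z : ∀ j, ZMod (q j)) : ℝ := ∑' j, (H j (z j + 1) - H j (z j))

/-- the skew product -/
noncomputable def TT (p : (∀ j, ZMod (q j)) × Circle) : (∀ j, ZMod (q j)) × Circle :=
  (p.1 + 1, p.2 * Circle.exp (2 * Real.pi * phi q H p.1))

variable {q H}

lemma phi_cont (hL : ∀ j z, |H j (z + 1) - H j z| ≤ (1 / 2) ^ j) : Continuous (phi q H) := by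
  unfold phi
  refine continuous_tsum (fun j => ?_) (summable_geometric_two) (fun j z => ?_)
  · have : Continuous fun w : ZMod (q j) => H j (w + 1) - H j w := continuous_of_discreteTopology
    exact this.comp (continuous_apply j)
  · rw [Real.norm_eq_abs]
    exact hL j _

lemma TT_cont (hL : ∀ j z, |H j (z + 1) - H j z| ≤ (1 / 2) ^ j) : Continuous (TT q H) := by
  have := phi_cont hL
  unfold TT
  fun_prop

lemma TT_iter_fst (n : ℕ) (p : (∀ j, ZMod (q j)) × Circle) :
    ((TT q H)^[n] p).1 = p.1 + (n : ∀ j, ZMod (q j)) := by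
  induction n with
  | zero => simp
  | succ n ih =>
    rw [Function.iterate_succ_apply']
    show ((TT q H)^[n] p).1 + 1 = _
    rw [ih]
    push_cast
    ring

lemma TT_iter_snd (n : ℕ) (z : ∀ j, ZMod (q j)) (y y' : Circle) :
    ((TT q H)^[n] (z, y)).2 * y' = ((TT q H)^[n] (z, y')).2 * y := by
  induction n with
  | zero => simp [mul_comm]
  | succ n ih =>
    rw [Function.iterate_succ_apply', Function.iterate_succ_apply']
    show ((TT q H)^[n] (z, y)).2 * Circle.exp (2 * Real.pi * phi q H ((TT q H)^[n] (z, y)).1) * y'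
      = ((TT q H)^[n] (z, y')).2 * Circle.exp (2 * Real.pi * phi q H ((TT q H)^[n] (z, y')).1) * y
    rw [TT_iter_fst, TT_iter_fst, mul_right_comm, ih, mul_right_comm]

lemma summable_H (h0 : ∀ j, H j 0 = 0) (hL : ∀ j z, |H j (z + 1) - H j z| ≤ (1 / 2) ^ j) (n : ℕ) :
    Summable fun j => H j (n : ZMod (q j)) := by
  induction n with
  | zero => simp [h0, summable_zero]
  | succ n ih =>
    have h1 : Summable fun j => (H j ((n : ZMod (q j)) + 1) - H j (n : ZMod (q j))) :=
      Summable.of_norm_bounded summable_geometric_two (fun j => by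
        rw [Real.norm_eq_abs]; exact hL j _)
    refine (h1.add ih).congr ?_
    intro j
    push_cast
    ring

lemma TT_orbit (h0 : ∀ j, H j 0 = 0) (hL : ∀ j z, |H j (z + 1) - H j z| ≤ (1 / 2) ^ j) (n : ℕ) :
    ((TT q H)^[n] (0, 1)).2 = Circle.exp (2 * Real.pi * ∑' j, H j (n : ZMod (q j))) := by
  induction n with
  | zero => simp [h0]
  | succ n ih =>
    rw [Function.iterate_succ_apply']
    show ((TT q H)^[n] (0, 1)).2 * Circle.exp (2 * Real.pi * phi q H ((TT q H)^[n] (0, 1)).1) = _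
    rw [ih, TT_iter_fst, ← Circle.exp_add, ← mul_add]
    congr 2
    unfold phi
    have h1 : Summable fun j => (H j ((n : ZMod (q j)) + 1) - H j (n : ZMod (q j))) :=
      Summable.of_norm_bounded summable_geometric_two (fun j => by
        rw [Real.norm_eq_abs]; exact hL j _)
    have h2 : ∀ j, (0 + (n : ∀ j, ZMod (q j))) j = (n : ZMod (q j)) := by
      intro j
      simp
    simp only [h2]
    rw [← (summable_H h0 hL n).tsum_add h1]
    apply tsum_congr
    intro j
    push_cast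
    ring

lemma distal_TT (hL : ∀ j z, |H j (z + 1) - H j z| ≤ (1 / 2) ^ j)
    (h0 : ∀ j, H j 0 = 0) : DistalSeq fun n =>
      (Circle.exp (2 * Real.pi * ∑' j, H j (n : ZMod (q j))) : ℂ) := by
  let _ : MetricSpace ((∀ j, ZMod (q j)) × Circle) := TopologicalSpace.metrizableSpaceMetric _
  refine ⟨(∀ j, ZMod (q j)) × Circle, inferInstance, inferInstance, TT q H, fun p => (p.2 : ℂ),
    (0, 1), TT_cont hL, ?_, ?_, ?_⟩
  · apply isDistal_of_closed
    rintro ⟨z, y⟩ ⟨z', y'⟩ hne
    by_cases hz : z = z'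
    · subst hz
      have hy : y ≠ y' := fun h => hne (by rw [h])
      refine ⟨{w | w.1.2 * y' = w.2.2 * y}, ?_, ?_, ?_⟩
      · exact isClosed_eq (by fun_prop) (by fun_prop)
      · intro n
        exact TT_iter_snd n z y y'
      · intro w hw
        exact hy (mul_left_cancel (hw : w.2 * y' = w.2 * y)).symm
    · refine ⟨{w | w.1.1 + z' = w.2.1 + z}, ?_, ?_, ?_⟩
      · exact isClosed_eq (by fun_prop) (by fun_prop)
      · intro n
        show ((TT q H)^[n] (z, y)).1 + z' = ((TT q H)^[n] (z', y')).1 + z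
        rw [TT_iter_fst, TT_iter_fst]
        ring
      · intro w hw
        exact hz (add_left_cancel (hw : w.1 + z' = w.1 + z)).symm
  · exact continuous_subtype_val.comp continuous_snd
  · intro n _
    simp only [TT_orbit h0 hL n]

end Skew

/-! ### interpolation of phases -/

/-- sets of positive integers whose gaps tend to infinity -/
def GapsToInfinity (E : Set ℕ) : Prop :=
  (∀ n ∈ E, 1 ≤ n) ∧ ∀ K : ℕ, ∃ N : ℕ, ∀ e ∈ E, ∀ e' ∈ E, e < e' → N < e' → e + K ≤ e'

lemma phases {E : Set ℕ} (hE : GapsToInfinity E) (θ : ℕ → ℝ) :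
    ∃ ψ : ℕ → ℂ, DistalSeq ψ ∧ ∀ n ∈ E, ψ n = (Circle.exp (2 * Real.pi * θ n) : ℂ) := by
  obtain ⟨hE1, hgap⟩ := hE
  choose M hM using hgap
  -- thresholds
  set Nn : ℕ → ℕ := fun j => Nat.rec 0 (fun j N => max (max (M (2 ^ (j + 1))) (2 ^ (j + 1))) (N + 1)) j
    with hNn
  have hNs : ∀ j, Nn (j + 1) = max (max (M (2 ^ (j + 1))) (2 ^ (j + 1))) (Nn j + 1) := fun j => rfl
  have hN0 : Nn 0 = 0 := rfl
  have hNlt : ∀ j, Nn j < Nn (j + 1) := by
    intro j
    rw [hNs]
    exact lt_of_lt_of_le (Nat.lt_succ_self _) (le_max_right _ _)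
  have hmono : StrictMono Nn := strictMono_nat_of_lt_succ hNlt
  have hA : ∀ j, ∀ e ∈ E, ∀ e' ∈ E, e < e' → Nn j < e' → e + 2 ^ j ≤ e' := by
    intro j
    cases j with
    | zero =>
      intro e _ e' _ h _
      simpa using h
    | succ j =>
      intro e he e' he' h h1
      refine hM _ e he e' he' h (lt_of_le_of_lt ?_ h1)
      rw [hNs]
      exact (le_max_left _ _).trans (le_max_left _ _)
  have hB : ∀ j, 2 ^ j ≤ Nn j + 1 := by
    intro j
    cases j with
    | zero => simp
    | succ j =>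
      have : 2 ^ (j + 1) ≤ Nn (j + 1) := by
        rw [hNs]
        exact (le_max_right _ _).trans (le_max_left _ _)
      omega
  -- the functions
  have hstep := fun (j : ℕ) (s : ℕ → ℝ) => step (N' := Nn (j + 1)) (hA j) (hB j)
    (fun n => Int.fract (θ n - s n)) (fun n => Int.fract_nonneg _) (fun n => (Int.fract_lt_one _).le)
  choose Q hQ HH h0 hL hz hc using hstep
  set s : ℕ → (ℕ → ℝ) := fun j => Nat.rec (fun _ => 0)
    (fun j s => fun n => s n + HH j s (n : ZMod (Q j s))) j with hs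
  have hs0 : s 0 = fun _ => 0 := rfl
  have hss : ∀ j n, s (j + 1) n = s j n + HH j (s j) (n : ZMod (Q j (s j))) := fun j n => rfl
  have hq : ∀ j, NeZero (Q j (s j)) := fun j => hQ j (s j)
  refine ⟨_, distal_TT (q := fun j => Q j (s j)) (H := fun j => HH j (s j))
    (fun j => hL j (s j)) (fun j => h0 j (s j)), ?_⟩
  intro n hn
  -- the level of `n`
  have hex : ∃ j, n ≤ Nn j := ⟨n, hmono.id_le n⟩
  classical
  obtain ⟨j, hj1, hj2⟩ : ∃ j, Nn j < n ∧ n ≤ Nn (j + 1) := by
    have h1 := Nat.find_spec hex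
    have h2 : Nat.find hex ≠ 0 := by
      intro h
      rw [h, hN0] at h1
      have := hE1 n hn
      omega
    obtain ⟨j, hj⟩ := Nat.exists_eq_succ_of_ne_zero h2
    refine ⟨j, ?_, by rw [hj] at h1; exact h1⟩
    have := Nat.find_min hex (m := j) (by omega)
    omega
  have hsum : ∀ i, s i n = ∑ k ∈ Finset.range i, HH k (s k) (n : ZMod (Q k (s k))) := by
    intro i
    induction i with
    | zero => simp [hs0]
    | succ i ih => rw [hss, ih, Finset.sum_range_succ]
  have htsum : ∑' k, HH k (s k) (n : ZMod (Q k (s k))) = s (j + 1) n := by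
    refine Eq.trans ?_ (hsum (j + 1)).symm
    apply tsum_eq_sum
    intro k hk
    rw [Finset.mem_range, not_lt] at hk
    have h1 : n ≤ Nn k := hj2.trans (hmono.monotone hk)
    exact hz k (s k) n hn h1 (h1.trans (hmono.monotone (Nat.le_succ k)))
  show (Circle.exp (2 * Real.pi * ∑' k, HH k (s k) (n : ZMod (Q k (s k)))) : ℂ) = _
  rw [htsum, hss, hc j (s j) n hn hj1 hj2]
  have hfin : Circle.exp (2 * Real.pi * (s j n + Int.fract (θ n - s j n)))
      = Circle.exp (2 * Real.pi * θ n) := by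
    rw [Circle.exp_eq_exp]
    refine ⟨-⌊θ n - s j n⌋, ?_⟩
    rw [Int.fract]
    push_cast
    ring
  rw [hfin]

/-- every complex number of modulus at most one is the mean of two unimodular numbers -/
lemma two_phases (w : ℂ) (hw : ‖w‖ ≤ 1) : ∃ a b : ℝ,
    w = ((Circle.exp (2 * Real.pi * a) : ℂ) + (Circle.exp (2 * Real.pi * b) : ℂ)) / 2 := by
  have hpi := Real.pi_pos
  refine ⟨(w.arg + Real.arccos ‖w‖) / (2 * Real.pi), (w.arg - Real.arccos ‖w‖) / (2 * Real.pi), ?_⟩
  rw [mul_div_cancel₀ _ (by positivity), mul_div_cancel₀ _ (by positivity), Circle.coe_exp,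
    Circle.coe_exp]
  push_cast
  rw [add_mul, sub_mul, Complex.exp_add, Complex.exp_sub]
  have h1 : Complex.cos (Real.arccos ‖w‖ : ℂ) = ‖w‖ := by
    rw [← Complex.ofReal_cos, Real.cos_arccos (by linarith [norm_nonneg w]) hw]
  have h2 : Complex.exp (w.arg * Complex.I) * (Complex.exp (Real.arccos ‖w‖ * Complex.I)
      + Complex.exp (-(Real.arccos ‖w‖ * Complex.I))) / 2 = w := by
    have h3 : Complex.exp (Real.arccos ‖w‖ * Complex.I)
      + Complex.exp (-(Real.arccos ‖w‖ * Complex.I)) = 2 * ‖w‖ := by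
      rw [← h1, Complex.cos]
      rw [neg_mul]
      ring
    rw [h3]
    have h4 := Complex.norm_mul_exp_arg_mul_I w
    calc Complex.exp (w.arg * Complex.I) * (2 * ‖w‖) / 2
        = ‖w‖ * Complex.exp (w.arg * Complex.I) := by ring
      _ = w := h4
  rw [Complex.exp_neg] at h2
  rw [← h2]
  simp only [h2]
  conv_lhs => rw [← h2]
  ring

theorem interp_of_gaps {E : Set ℕ} (hE : GapsToInfinity E) : Interp E := by
  rintro f ⟨C, hC⟩
  set C' : ℝ := max C 1 with hC'
  have hC'1 : 1 ≤ C' := le_max_right _ _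
  have hC'0 : (C' : ℂ) ≠ 0 := by
    have : C' ≠ 0 := by linarith
    exact_mod_cast this
  have h1 : ∀ n : ℕ, ∃ a b : ℝ, n ∈ E → f n / C' =
      ((Circle.exp (2 * Real.pi * a) : ℂ) + (Circle.exp (2 * Real.pi * b) : ℂ)) / 2 := by
    intro n
    by_cases hn : n ∈ E
    · obtain ⟨a, b, hab⟩ := two_phases (f n / C') (by
        rw [norm_div, Complex.norm_real, Real.norm_of_nonneg (by linarith), div_le_one (by linarith)]
        exact (hC n hn).trans (le_max_left _ _))
      exact ⟨a, b, fun _ => hab⟩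
    · exact ⟨0, 0, fun h => absurd h hn⟩
  choose a b hab using h1
  obtain ⟨ψ₁, hψ₁, h2⟩ := phases hE a
  obtain ⟨ψ₂, hψ₂, h3⟩ := phases hE b
  refine ⟨_, hψ₁.map₂ hψ₂ (fun p => C' * ((p.1 + p.2) / 2)) (by fun_prop), ?_⟩
  intro n hn
  simp only
  rw [h2 n hn, h3 n hn, ← hab n hn]
  field_simp

/-- the squares -/
def squares : Set ℕ := Set.range fun n : ℕ => (n + 1) ^ 2

lemma squares_gaps : GapsToInfinity squares := by
  constructor
  · rintro _ ⟨n, rfl⟩
    exact Nat.one_le_pow _ _ (by omega)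
  · intro K
    refine ⟨K ^ 2, ?_⟩
    rintro _ ⟨a, rfl⟩ _ ⟨b, rfl⟩ hab hb
    simp only at hab hb ⊢
    have h1 : a < b := by
      by_contra h
      push Not at h
      have : (b + 1) ^ 2 ≤ (a + 1) ^ 2 := Nat.pow_le_pow_left (by omega) 2
      omega
    have h2 : K < b + 1 := by
      by_contra h
      push Not at h
      have : (b + 1) ^ 2 ≤ K ^ 2 := Nat.pow_le_pow_left h 2
      omega
    nlinarith

lemma squares_sublacunary : Sublacunary squares := by
  refine ⟨fun n => (n + 1) ^ 2, ?_, rfl, ?_⟩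
  · apply strictMono_nat_of_lt_succ
    intro n
    exact Nat.pow_lt_pow_left (by omega) (by norm_num)
  · have h1 : Tendsto (fun x : ℝ => Real.log x / x) atTop (𝓝 0) :=
      Real.isLittleO_log_id_atTop.tendsto_div_nhds_zero
    have h2 : Tendsto (fun n : ℕ => (n : ℝ) + 1) atTop atTop :=
      tendsto_atTop_add_const_right _ _ tendsto_natCast_atTop_atTop
    have h3 := (h1.comp h2).const_mul 2
    rw [mul_zero] at h3
    refine h3.congr ?_
    intro n
    simp only [Function.comp]
    push_cast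
    rw [Real.log_pow]
    push_cast
    ring

/-- **Q1 is false.**  There is a sublacunary set (the set of squares) which is an interpolation
set for distal sequences; in fact every set of positive integers whose gaps tend to infinity is an
interpolation set for distal sequences. -/
theorem result :
    (∃ E : Set ℕ, (∀ n ∈ E, 1 ≤ n) ∧ Sublacunary E ∧ Interp E) ∧
      ∀ E : Set ℕ, GapsToInfinity E → Interp E :=
  ⟨⟨squares, squares_gaps.1, squares_sublacunary, interp_of_gaps squares_gaps⟩,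
    fun _ h => interp_of_gaps h⟩

end Pool.Agent.Results.MP_924486_an.SparseInterpolation
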